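import Pool.Agent.Helper82.SG.St

/-!
# Project SG, module CHO: nets and representatives of the cut points
-/

set_option autoImplicit false

namespace Pool.Agent.Helper82.SG

open Finset Real MeasureTheory Pool.Agent.Helper77.Steiner
open Pool.Agent.Helper18.GP (nlen NConn)
open scoped ENNReal

section

variable {E : Type} [MetricSpace E]

/-- pairwise distances at least `η` -/
private def Spd (N : Finset E) (η : ℝ) : Prop := ∀ b ∈ N, ∀ b' ∈ N, b ≠ b' → η ≤ dist b b'

private theorem net_lemma (B C : Finset E) (η : ℝ) (hη : 0 < η) (hCB : C ⊆ B) (hC : Spd C η) :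
    ∃ N : Finset E, C ⊆ N ∧ N ⊆ B ∧ Spd N η ∧ ∀ b ∈ B, ∃ b' ∈ N, dist b b' ≤ η := by
  classical
  have hne : (B.powerset.filter (fun N => C ⊆ N ∧ Spd N η)).Nonempty :=
    ⟨C, by
      rw [mem_filter, mem_powerset]
      exact ⟨hCB, Subset.refl _, hC⟩⟩
  obtain ⟨N, hN, hmax⟩ := (B.powerset.filter (fun N => C ⊆ N ∧ Spd N η)).exists_max_image
    (fun N => N.card) hne
  rw [mem_filter, mem_powerset] at hN
  obtain ⟨hNB, hCN, hS⟩ := hN
  refine ⟨N, hCN, hNB, hS, ?_⟩
  intro b hb
  by_contra hcon
  push Not at hcon
  have hbN : b ∉ N := by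
    intro h
    have := hcon b h
    rw [dist_self] at this
    linarith
  have hmem : insert b N ∈ B.powerset.filter (fun N => C ⊆ N ∧ Spd N η) := by
    rw [mem_filter, mem_powerset]
    refine ⟨insert_subset hb hNB, hCN.trans (subset_insert _ _), ?_⟩
    intro u hu v hv huv
    rw [mem_insert] at hu hv
    rcases hu with rfl | hu
    · rcases hv with rfl | hv
      · exact absurd rfl huv
      · exact (hcon v hv).le
    · rcases hv with rfl | hv
      · rw [dist_comm]
        exact (hcon u hu).le
      · exact hS u hu v hv huv
  have h1 := hmax _ hmem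
  rw [card_insert_of_notMem hbN] at h1
  omega

private theorem exp_half {K : ℕ} (hK : 1 ≤ K) : (5 / 2 : ℝ) ≤ exp K := by
  have h1 : (2.7182818283 : ℝ) < exp 1 := Real.exp_one_gt_d9
  have h2 : exp 1 ≤ exp (K : ℝ) := exp_le_exp.2 (by exact_mod_cast hK)
  linarith

end

theorem hCHO (hGEO : StGEO) : StCHO := by
  classical
  intro E _ A h n x par K U θ t cut top cfg
  have geo := hGEO A h n x par K U θ t cut top cfg
  obtain ⟨δ, hδ, hδh⟩ := cfg.sc.pos
  have hpos : ∀ v, 0 < h v := fun v => hδ.trans_le (hδh v)
  have hexp := exp_half cfg.hK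
  -- the balls
  let Bl : ℕ → Finset E := fun j => A.filter (fun b => dist b (x j) ≤ 2 * exp K * h (x j))
  have hη : ∀ j, 0 < exp (-2 * K) * h (x j) := fun j => mul_pos (exp_pos _) (hpos _)
  have key : ∀ k ≤ n, ∃ (a : ℕ → E) (N : ℕ → Finset E),
      (∀ j ≤ k, top j = j → N j ⊆ Bl j ∧ Spd (N j) (exp (-2 * K) * h (x j)) ∧
        ∀ b ∈ Bl j, ∃ b' ∈ N j, dist b b' ≤ exp (-2 * K) * h (x j)) ∧
      ∀ i, 1 ≤ i → i ≤ k → cut i → a i ∈ N (top (par i)) ∧ a i ∈ N i ∧
        dist (x (par i)) (a i) ≤ 2 * h (x (par i)) := by
    intro k
    induction k with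
    | zero =>
      intro _
      obtain ⟨N, -, h2, h3, h4⟩ := net_lemma (Bl 0) ∅ _ (hη 0) (empty_subset _)
        (fun b hb => absurd hb (notMem_empty b))
      refine ⟨fun _ => x 0, fun _ => N, ?_, ?_⟩
      · intro j hj _
        have : j = 0 := by omega
        subst this
        exact ⟨h2, h3, h4⟩
      · intro i h1 h2
        omega
    | succ k ih =>
      intro hk
      obtain ⟨a, N, hN, ha⟩ := ih (by omega)
      by_cases hc : cut (k + 1)
      · have hp := cfg.par_lt (k + 1) (by omega) hk
        obtain ⟨g1, g2, g3, g4, g5⟩ := geo (par (k + 1)) (by omega)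
        have hjk : top (par (k + 1)) ≤ k := by omega
        obtain ⟨b, hbA, hb⟩ := cfg.sc.near (x (par (k + 1)))
        obtain ⟨n1, n2, n3⟩ := hN (top (par (k + 1))) hjk g2
        have hbB : b ∈ Bl (top (par (k + 1))) := by
          rw [mem_filter]
          refine ⟨hbA, ?_⟩
          have h1 : dist b (x (top (par (k + 1)))) ≤
              dist (x (par (k + 1))) b + dist (x (par (k + 1))) (x (top (par (k + 1)))) := by
            rw [dist_comm (x (par (k + 1))) b]
            exact dist_triangle _ _ _
          have h2 := hpos (x (top (par (k + 1))))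
          linarith
        obtain ⟨b', hb'N, hb'⟩ := n3 b hbB
        have hv : dist (x (par (k + 1))) b' ≤ 2 * h (x (par (k + 1))) := by
          have h1 := dist_triangle (x (par (k + 1))) b b'
          linarith
        have hb'A : b' ∈ A := (mem_filter.1 (n1 hb'N)).1
        have hfine := cfg.fine (k + 1) (by omega) hk
        have hlip := cfg.sc.lip (x (par (k + 1))) (x (k + 1))
        have hb'B : b' ∈ Bl (k + 1) := by
          rw [mem_filter]
          refine ⟨hb'A, ?_⟩
          have h1 : dist b' (x (k + 1)) ≤
              dist (x (par (k + 1))) b' + dist (x (par (k + 1))) (x (k + 1)) := by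
            rw [dist_comm (x (par (k + 1))) b']
            exact dist_triangle _ _ _
          have h2 := hpos (x (k + 1))
          have h3 : 5 / 2 * h (x (k + 1)) ≤ exp K * h (x (k + 1)) :=
            mul_le_mul_of_nonneg_right hexp h2.le
          linarith
        obtain ⟨N', m1, m2, m3, m4⟩ := net_lemma (Bl (k + 1)) {b'} _ (hη (k + 1))
          (singleton_subset_iff.2 hb'B) (by
            intro u hu v hv huv
            rw [mem_singleton] at hu hv
            exact absurd (hu.trans hv.symm) huv)
        refine ⟨Function.update a (k + 1) b', Function.update N (k + 1) N', ?_, ?_⟩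
        · intro j hj htj
          by_cases hjk' : j = k + 1
          · subst hjk'
            rw [Function.update_self]
            exact ⟨m2, m3, m4⟩
          · rw [Function.update_of_ne hjk']
            exact hN j (by omega) htj
        · intro i h1 h2 hci
          by_cases hik : i = k + 1
          · subst hik
            rw [Function.update_self, Function.update_self,
              Function.update_of_ne (show top (par (k + 1)) ≠ k + 1 by omega)]
            exact ⟨hb'N, m1 (mem_singleton_self _), hv⟩
          · obtain ⟨q1, q2, q3⟩ := ha i h1 (by omega) hci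
            have hp' := cfg.par_lt i h1 (by omega)
            have hg := (geo (par i) (by omega)).1
            rw [Function.update_of_ne hik, Function.update_of_ne hik,
              Function.update_of_ne (show top (par i) ≠ k + 1 by omega)]
            exact ⟨q1, q2, q3⟩
      · refine ⟨a, N, ?_, ?_⟩
        · intro j hj htj
          by_cases hjk' : j = k + 1
          · exfalso
            subst hjk'
            have hp := cfg.par_lt (k + 1) (by omega) hk
            have h1 := cfg.top2 (k + 1) (by omega) hk hc
            have h2 := (geo (par (k + 1)) (by omega)).1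
            omega
          · exact hN j (by omega) htj
        · intro i h1 h2 hci
          by_cases hik : i = k + 1
          · subst hik
            exact absurd hci hc
          · exact ha i h1 (by omega) hci
  obtain ⟨a, N, hN, ha⟩ := key n le_rfl
  refine ⟨a, N, ?_, ha⟩
  intro j hj htj
  obtain ⟨n1, n2, -⟩ := hN j hj htj
  refine ⟨fun b hb => (mem_filter.1 (n1 hb)).1, fun b hb => (mem_filter.1 (n1 hb)).2, n2⟩

end Pool.Agent.Helper82.SG
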