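import Pool.Agent.Helper45.SG.M_HF
import Pool.Agent.Helper6.SG.M_SEQ
import Pool.Agent.Helper36.SG.M_SHF
import Pool.Agent.Helper57.SG.M_GEO
import Pool.Agent.Helper82.SG.M_CHO
import Pool.Agent.Helper43.SG.M_PNE
import Pool.Agent.Helper86.SG.M_MST
import Pool.Agent.Helper32.SG.M_CORE
import Pool.Agent.Helper10.SG.M_NTW
import Pool.Agent.Helper98.SG.M_HAU
import Pool.Agent.Helper47.SG.M_LNT
import Pool.Agent.Helper7.SG.M_DEG
import Pool.Agent.Helper28.SG.M_LIP
import Pool.Agent.Helper25.SG.M_LOW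
import Pool.Agent.Helper55.SG.M_RND
import Pool.Agent.Helper76.SG.M_GRD
import Pool.Agent.Helper69.SG.M_LOB
import Pool.Agent.Helper72.SG.M_UPB
import Pool.Agent.Helper60.SG.M_FIN

/-!
Project SG (MP_e46579_co): final assembly.
-/

set_option autoImplicit false

namespace Pool.Agent.Helper82.SG

theorem fGEO : StGEO := Pool.Agent.Helper57.SG.hGEO
theorem fCHO : StCHO := hCHO fGEO
theorem fPNE : StPNE := Pool.Agent.Helper43.SG.hPNE fGEO
theorem fMST : StMST := Pool.Agent.Helper86.SG.hMST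
theorem fCORE : StCORE := Pool.Agent.Helper32.SG.hCORE fGEO fCHO fPNE fMST
theorem fNTW : StNTW := Pool.Agent.Helper10.SG.hNTW Pool.Agent.Helper45.SG.hHF
  Pool.Agent.Helper6.SG.hSEQ Pool.Agent.Helper36.SG.hSHF fCORE
theorem fHAU : StHAU := Pool.Agent.Helper98.SG.hHAU
theorem fLNT : StLNT := Pool.Agent.Helper47.SG.hLNT fMST
theorem fDEG : StDEG := Pool.Agent.Helper7.SG.hDEG fMST fLNT
theorem fLIP : StLIP := Pool.Agent.Helper28.SG.hLIP fMST
theorem fLOW : StLOW := Pool.Agent.Helper25.SG.hLOW fMST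
theorem fRND : StRND := Pool.Agent.Helper55.SG.hRND
theorem fGRD : StGRD := Pool.Agent.Helper76.SG.hGRD fDEG fLIP fLOW fRND
theorem fLOB : StLOB := Pool.Agent.Helper69.SG.hLOB fHAU fLNT
theorem fUPB : StUPB := Pool.Agent.Helper72.SG.hUPB fNTW fGRD
theorem fFIN : StFIN := Pool.Agent.Helper60.SG.hFIN fLOB fUPB

end Pool.Agent.Helper82.SG
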