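import Pool.Agent.Helper77.GP.Haus

/-!
# Project SG (MP_e46579_co): effective determination of the Steiner ratio

For every `d`, the Steiner ratio of `ℝ^d` is, up to a factor `1 + 200 / log M`, the minimum of
`mst B / mst A` over all `A ⊆ B ⊆ {0, .., M}^d` with at least two points in `A`.

Method: cuts of an almost minimal tree at log-depth `≡ θ mod K`, where the local scale at `v` is the distance of `v` from
the second nearest point of `A`; the cut points are replaced by points of `A` chosen from nets.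

Every `St..` is a `Prop`; a module proves it as a theorem whose hypotheses are the statements named in the docstring
after the word Uses.
-/

set_option autoImplicit false

namespace Pool.Agent.Helper82.SG

open Finset Real MeasureTheory Pool.Agent.Helper77.Steiner
open Pool.Agent.Helper18.GP (nlen NConn)
open scoped ENNReal

/-- aspect ratio at most `D` -/
def Asp {E : Type*} [MetricSpace E] (A : Finset E) (D : ℝ) : Prop :=
  ∀ x ∈ A, ∀ y ∈ A, ∀ u ∈ A, ∀ v ∈ A, u ≠ v → dist x y ≤ D * dist u v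

/-- `h` is a local scale of `A` (the distance from the second nearest point of `A`) -/
structure Scale {E : Type*} [MetricSpace E] (A : Finset E) (h : E → ℝ) : Prop where
  lip : ∀ v w, h v ≤ h w + dist v w
  near : ∀ v, ∃ a ∈ A, dist v a ≤ h v
  sep : ∀ a ∈ A, ∀ b ∈ A, a ≠ b → h a ≤ dist a b
  pos : ∃ δ : ℝ, 0 < δ ∧ ∀ v, δ ≤ h v

/-- A rooted tree `x 0, .., x n` (`x i` is joined to `x (par i)`), with integer depths `t`, cut at
the depths `≡ θ mod K U`; `top i` is the top vertex of the piece of `i`. -/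
structure Cfg {E : Type*} [MetricSpace E] (A : Finset E) (h : E → ℝ) (n : ℕ) (x : ℕ → E)
    (par : ℕ → ℕ) (K U θ : ℕ) (t : ℕ → ℕ) (cut : ℕ → Prop) (top : ℕ → ℕ) : Prop where
  sc : Scale A h
  par_lt : ∀ i, 1 ≤ i → i ≤ n → par i < i
  fine : ∀ i, 1 ≤ i → i ≤ n → dist (x (par i)) (x i) ≤ h (x (par i)) / 2
  ter : ∀ a ∈ A, ∃ i ≤ n, x i = a
  hK : 1 ≤ K
  hU : 1 ≤ U
  t_le : ∀ i, 1 ≤ i → i ≤ n → t (par i) ≤ t i
  t_e : ∀ i, 1 ≤ i → i ≤ n →
    (U : ℝ) * dist (x (par i)) (x i) ≤ h (x (par i)) * ((t i : ℝ) - t (par i))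
  hθ : θ < K * U
  cut_iff : ∀ i, cut i ↔ ∃ m, t (par i) < m ∧ m ≤ t i ∧ m % (K * U) = θ
  top0 : top 0 = 0
  top1 : ∀ i, 1 ≤ i → i ≤ n → cut i → top i = i
  top2 : ∀ i, 1 ≤ i → i ≤ n → ¬ cut i → top i = top (par i)

/-- the points of the lattice box `{0, .., M}^d` -/
noncomputable def grid (d M : ℕ) : Finset (EuclideanSpace ℝ (Fin d)) :=
  (Fintype.piFinset fun _ : Fin d => range (M + 1)).image
    fun p => WithLp.toLp 2 fun i => (p i : ℝ)

/-- `R_d(M)`: the minimum of `mst B / mst A` over `A ⊆ B ⊆ {0, .., M}^d`, `A` with at least two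
points -/
noncomputable def gridRatio (d M : ℕ) : ℝ≥0∞ :=
  ⨅ (A : Finset (EuclideanSpace ℝ (Fin d))) (B : Finset (EuclideanSpace ℝ (Fin d)))
    (_ : 2 ≤ A.card) (_ : A ⊆ B) (_ : B ⊆ grid d M),
    ENNReal.ofReal (mstLen B) / ENNReal.ofReal (mstLen A)

/-! ### The core -/

/-- HF (local scale). No hypotheses. About 60 lines.

Proof. `h v = min over (a, b) ∈ A.offDiag of max (dist v a) (dist v b)` (`Finset.inf'`, `A.offDiag` is not empty). `lip`: a minimum of maxima of functions with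
`f v ≤ f w + dist v w` is such a function. `near`: the first point of a pair where the minimum is attained. `sep`: the pair `(a, b)`: `max 0 (dist a b)`. `pos`: with `δ` = half of
the least distance in `A.offDiag`: `dist a b ≤ dist v a + dist v b ≤ 2 max`. -/
def StHF : Prop := ∀ {E : Type} [MetricSpace E] (A : Finset E), 2 ≤ A.card → ∃ h : E → ℝ, Scale A h

/-- SEQ (subdivided networks as sequences). No hypotheses. About 120 lines.

Proof. Induction on `Net V l`. `single v`: `n = 0`. `step` (`p ∈ V`, new point `w`): `n, x, par` for `V`, `p = x k`, `k ≤ n`. Let `m ≥ 1` with `dist p w ≤ m δ` and new points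
`y_s = p + (s / m) (w - p)` (`AffineMap.lineMap`), `s = 1, .., m`: `x (n + s) = y_s`, `par (n + 1) = k`, `par (n + s) = n + s - 1` for `s ≥ 2`; every new edge has length `dist p w / m`.
(Maybe first a lemma: one more point `w` joined to `x k` with `dist (x k) w ≤ δ`; then induction on `m`.) -/
def StSEQ : Prop := ∀ {E : Type} [NormedAddCommGroup E] [NormedSpace ℝ E] (V : Finset E) (l : ℝ),
  Net V l → ∀ δ : ℝ, 0 < δ → ∃ (n : ℕ) (x : ℕ → E) (par : ℕ → ℕ),
    (∀ i, 1 ≤ i → i ≤ n → par i < i) ∧ (∀ i, 1 ≤ i → i ≤ n → dist (x (par i)) (x i) ≤ δ) ∧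
    (∀ v ∈ V, ∃ i ≤ n, x i = v) ∧ ∑ i ∈ Icc 1 n, dist (x (par i)) (x i) ≤ l

open Classical in
/-- SHF (choice of the shift `θ`). No hypotheses. About 120 lines.

Proof. `U ≥ 1` with `(∑_{i ∈ Icc 1 n} w i) / (K U) ≤ ε`. `t i = t (par i) + ⌈U e i / w i⌉₊` (strong recursion; `t i = 0` if `i = 0` or `i > n` or not `par i < i`), so
`U e i ≤ w i (t i - t (par i)) ≤ U e i + w i`. For `θ < K U` let `S θ` be the sum of the `w i` over the `i ∈ Icc 1 n` with `∃ m, t (par i) < m ≤ t i, m % (K U) = θ`. Exchange the sums: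
`∑_{θ < K U} S θ = ∑_i w i #{θ < K U | ..} ≤ ∑_i w i (t i - t (par i))` because the set of these `θ` is contained in the image of `Ioc (t (par i)) (t i)` under `m ↦ m % (K U)`
(`card_image_le`). This is `≤ ∑_i (U e i + w i)`, so some `θ` has `S θ ≤ (U ∑ e i + ∑ w i) / (K U) ≤ (∑ e i) / K + ε` (`Finset.exists_le_of_sum_le`). -/
def StSHF : Prop := ∀ (n K : ℕ) (par : ℕ → ℕ) (e w : ℕ → ℝ) (ε : ℝ),
  (∀ i, 1 ≤ i → i ≤ n → par i < i) → (∀ i, 0 ≤ e i) → (∀ i, 0 < w i) → 1 ≤ K → 0 < ε →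
  ∃ (U θ : ℕ) (t : ℕ → ℕ), 1 ≤ U ∧ θ < K * U ∧ (∀ i, 1 ≤ i → i ≤ n → t (par i) ≤ t i) ∧
    (∀ i, 1 ≤ i → i ≤ n → (U : ℝ) * e i ≤ w i * ((t i : ℝ) - t (par i))) ∧
    ∑ i ∈ (Icc 1 n).filter (fun i => ∃ m, t (par i) < m ∧ m ≤ t i ∧ m % (K * U) = θ), w i ≤
      (∑ i ∈ Icc 1 n, e i) / K + ε

/-- GEO (geometry of the pieces). No hypotheses. About 150 lines.

Proof. (0) `top i ≤ i`, `top (top i) = top i`, by strong induction. (1) By strong induction on `i ≤ n`, with `j = top i`: `t j ≤ t i` and no `m` with `t j < m ≤ t i` has `m % (K U) = θ` (an uncut `i`: such an `m` is `≤ t (par i)` or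
`> t (par i)`). Hence `t i - t j < K U` (any `K U` consecutive numbers contain one which is `≡ θ`, `θ < K U`). (2) Let `s i = (t i - t (top i)) / U < K`, `H = h (x (top i))`. By strong induction
`h (x i) ≤ H exp (s i)`, `H exp (-2 s i) ≤ h (x i)`, `dist (x i) (x (top i)) ≤ H (exp (s i) - 1)`: for `i` uncut, `i ≥ 1`, `p = par i`, `top i = top p`, `Δ = dist (x p) (x i) / h (x p) ≤ s i - s p` (`t_e`), `0 ≤ Δ ≤ 1/2` (`fine`),
`h (x i) ≤ h (x p) (1 + Δ) ≤ h (x p) exp (s i - s p)`, `h (x i) ≥ h (x p) (1 - Δ) ≥ h (x p) exp (-2 Δ)` (`1 - Δ ≥ exp (-2 Δ)` for `0 ≤ Δ ≤ 1/2`: `exp (2 Δ) (1 - Δ) ≥ (1 + 2 Δ)(1 - Δ) ≥ 1`), and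
`dist (x i) (x j) ≤ H (exp (s p) - 1) + Δ h (x p) ≤ H (exp (s p) (1 + Δ) - 1) ≤ H (exp (s i) - 1)`. For `i = top i` all is trivial (`s = 0`). -/
def StGEO : Prop := ∀ {E : Type} [MetricSpace E] (A : Finset E) (h : E → ℝ) (n : ℕ) (x : ℕ → E)
  (par : ℕ → ℕ) (K U θ : ℕ) (t : ℕ → ℕ) (cut : ℕ → Prop) (top : ℕ → ℕ),
  Cfg A h n x par K U θ t cut top → ∀ i ≤ n, top i ≤ i ∧ top (top i) = top i ∧
    dist (x i) (x (top i)) ≤ (exp K - 1) * h (x (top i)) ∧
    h (x i) ≤ exp K * h (x (top i)) ∧ exp (-2 * K) * h (x (top i)) ≤ h (x i)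

/-- CHO (nets and representatives of the cut points). Uses `StGEO`. About 150 lines.

Proof. NET LEMMA: for a finite set `B`, `η > 0` and a set `C ⊆ B` with pairwise distances `≥ η` there is `C ⊆ N ⊆ B` with pairwise distances `≥ η` and for every `b ∈ B` some `b' ∈ N` with
`dist b b' ≤ η` (a maximal one; `Finset.exists_maximal` or induction on `B`). For `j ≤ n` let `B_j` = the points `b` of `A` with `dist b (x j) ≤ 2 exp K h (x j)` and `η_j = exp (-2 K) h (x j)`.
By induction on `k ≤ n` there are `a, N` such that for `j ≤ k` with `top j = j`: `N j ⊆ B_j`, `N j` has pairwise distances `≥ η_j`, every `b ∈ B_j` has a `b' ∈ N j` with `dist b b' ≤ η_j`, and for `1 ≤ i ≤ k` cut the three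
statements about `a i`. `k = 0`: net lemma with `C = ∅`. Step, `i = k + 1` cut: `v = x (par i)`, `j = top (par i) ≤ k`, `top j = j`; by `near` there is `b ∈ A` with `dist v b ≤ h v ≤ exp K h (x j)`, so `b ∈ B_j`
(`dist b (x j) ≤ h v + dist v (x j) ≤ (2 exp K - 1) h (x j)`), and `a i := b' ∈ N j` with `dist b b' ≤ η_j ≤ h v`; so `dist v (a i) ≤ 2 h v`. Now `h v ≤ 2 h (x i)` (`lip`, `fine`) and
`dist (a i) (x i) ≤ 5/2 h v ≤ 5 h (x i) ≤ 2 exp K h (x i)` (`exp 1 ≥ 5/2`), so `a i ∈ B_i`; take `N i` by the net lemma with `C = {a i}` (`Function.update`). If `i` is not cut, `top i ≠ i` (`top i = top (par i) ≤ par i`) and nothing is to do. -/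
def StCHO : Prop := ∀ {E : Type} [MetricSpace E] (A : Finset E) (h : E → ℝ) (n : ℕ) (x : ℕ → E)
  (par : ℕ → ℕ) (K U θ : ℕ) (t : ℕ → ℕ) (cut : ℕ → Prop) (top : ℕ → ℕ),
  Cfg A h n x par K U θ t cut top → ∃ (a : ℕ → E) (N : ℕ → Finset E),
    (∀ j ≤ n, top j = j → N j ⊆ A ∧ (∀ b ∈ N j, dist b (x j) ≤ 2 * exp K * h (x j)) ∧
      ∀ b ∈ N j, ∀ b' ∈ N j, b ≠ b' → exp (-2 * K) * h (x j) ≤ dist b b') ∧
    ∀ i, 1 ≤ i → i ≤ n → cut i → a i ∈ N (top (par i)) ∧ a i ∈ N i ∧
      dist (x (par i)) (a i) ≤ 2 * h (x (par i))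

open Classical in
/-- PNE (a network for a piece). Uses `StGEO` (only for `top i ≤ i`). About 120 lines.

Proof. For `m` from `j` to `n` there are `V, l` with `Net V l`, `x i ∈ V` for all `i ≤ m` with `top i = j`, `a i ∈ V` for all `1 ≤ i ≤ m` cut with `top (par i) = j`, and `l ≤` the sum of the first two sums, restricted to `i ≤ m`.
`m = j`: `V = {x j}`, `l = 0` (no `i < j` has `top i = j`; no `i ≤ j` has `top (par i) = j`). Step `i = m + 1`: if `i` is cut and `top (par i) = j` join `a i` to `x (par i)` (`Net.step`); if `i` is not cut and `top (par i) = j` (`= top i`) join `x i` to `x (par i)`;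
otherwise nothing. At the end, if `1 ≤ j` and `cut j`: join `x (par j)` to `x j` and `a j` to `x (par j)`. -/
def StPNE : Prop := ∀ {E : Type} [MetricSpace E] (A : Finset E) (h : E → ℝ) (n : ℕ) (x : ℕ → E)
  (par : ℕ → ℕ) (K U θ : ℕ) (t : ℕ → ℕ) (cut : ℕ → Prop) (top : ℕ → ℕ) (a : ℕ → E),
  Cfg A h n x par K U θ t cut top →
  (∀ i, 1 ≤ i → i ≤ n → cut i → dist (x (par i)) (a i) ≤ 2 * h (x (par i))) →
  ∀ j ≤ n, top j = j → ∃ (V : Finset E) (l : ℝ), Net V l ∧ (∀ i ≤ n, top i = j → x i ∈ V) ∧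
    (∀ i, 1 ≤ i → i ≤ n → cut i → top (par i) = j → a i ∈ V) ∧ (1 ≤ j → cut j → a j ∈ V) ∧
    l ≤ ∑ i ∈ (Icc 1 n).filter (fun i => ¬ cut i ∧ top i = j), dist (x (par i)) (x i) +
      ∑ i ∈ (Icc 1 n).filter (fun i => cut i ∧ top (par i) = j), 2 * h (x (par i)) +
      if 1 ≤ j ∧ cut j then dist (x (par j)) (x j) + 2 * h (x (par j)) else 0

/-- MST (a spanning tree as a list). No hypotheses. About 80 lines.

Proof. The infimum in `mstLen` is over a finite, nonempty type (`exists_tree_on`), so it is attained by a tree `T`; list of the pairs `(x, y)` of the edges of `T` (choose one order for each edge, `T.edgeFinset.toList.map ..`, `Sym2.out`).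
The length of the list is `T.edgeFinset.card = A.card - 1` (`IsTree.card_edgeFinset`). `NConn`: `T` is connected (induction on walks, `EqvGen.rel`, `EqvGen.symm`). -/
def StMST : Prop := ∀ {E : Type} [MetricSpace E] (A : Finset E), A.Nonempty →
  ∃ m : List (E × E), (∀ p ∈ m, p.1 ∈ A ∧ p.2 ∈ A ∧ p.1 ≠ p.2) ∧ NConn m (A : Set E) ∧
    m.length + 1 = A.card ∧ nlen dist m = mstLen A

open Classical in
/-- CORE. Uses `StGEO`, `StCHO`, `StPNE`, `StMST`. About 200 lines.

Proof. `a, N` from CHO. For `j ≤ n` with `top j = j` let `A_j ⊆ A` be the set of the `x i ∈ A` with `i ≤ n`, `top i = j`, of the `a i` with `1 ≤ i ≤ n` cut, `top (par i) = j`, and of `a j` if `1 ≤ j`, `cut j`. All the `a i` in it are in `N j`.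
(1) `Asp A_j (4 exp (3 K))`: with `H = h (x j)`, all points of `A_j` have distance `≤ 2 exp K H` from `x j`, and two different points have distance `≥ exp (-2 K) H` (if one is `x i`, `top i = j`: `sep` and GEO; if both are in `N j`: CHO).
(2) `c mstLen A_j ≤ L_j` if `A_j` is not empty, where `L_j` is the right side in PNE (`hc`). (3) Let `m_j` be the list of MST for `A_j` (the empty list if `A_j = ∅`), `m` the concatenation over all `j ≤ n` with `top j = j`. It connects `A`: every point of `A` is in some `A_j` (`ter`, GEO).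
Claim: for all `k` and all tops `j, j' ≤ k` all points of `A_j` and `A_{j'}` are joined by `m`; induction on `k`: for `k + 1` a top, it is cut (else `top (k+1) = top (par (k+1)) ≤ k`), and `a (k+1) ∈ A_{k+1} ∩ A_{top (par (k+1))}`.
So `mstLen A ≤ nlen dist m = ∑_j mstLen A_j` (`mstLen_le_list`; the empty ones give 0) and `c mstLen A ≤ ∑_j L_j`.
(4) `∑_j L_j ≤ ∑_i dist (x (par i)) (x i) + 4 ∑_{i cut} h (x (par i))`: every uncut `i` is counted for `j = top i`, every cut `i` is counted once for `j = top (par i)` (`2 h`) and once as the top `j = i` (`dist + 2 h`) (`Finset.sum_fiberwise_of_maps_to`, sums over `j ∈ range (n+1)` with `top j = j`). -/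
def StCORE : Prop := ∀ {E : Type} [MetricSpace E] (A : Finset E) (h : E → ℝ) (n : ℕ) (x : ℕ → E)
  (par : ℕ → ℕ) (K U θ : ℕ) (t : ℕ → ℕ) (cut : ℕ → Prop) (top : ℕ → ℕ) (c : ℝ),
  Cfg A h n x par K U θ t cut top → A.Nonempty → 0 ≤ c →
  (∀ B : Finset E, B.Nonempty → Asp B (4 * exp (3 * K)) → ∀ (V : Finset E) (l : ℝ), Net V l →
    B ⊆ V → c * mstLen B ≤ l) →
  c * mstLen A ≤ ∑ i ∈ Icc 1 n, dist (x (par i)) (x i) +
    4 * ∑ i ∈ (Icc 1 n).filter (fun i => cut i), h (x (par i))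

/-- NTW. Uses `StHF`, `StSEQ`, `StSHF`, `StCORE`. About 80 lines.

Proof. If `A.card ≥ 2`: `h` from HF, `δ` from `pos`; SEQ with `δ / 2`; for `ε > 0` SHF with `e i = dist (x (par i)) (x i)`, `w i = h (x (par i))`; `cut` as in `Cfg.cut_iff`; `top` by strong recursion (`top i = top (par i)` if `par i < i` and not cut `i`, else `i`;
for `i = 0` this is `0`). CORE gives `c mstLen A ≤ ∑ e + 4 ((∑ e) / K + ε) ≤ (1 + 4 / K) l + 4 ε`; `ε → 0`. If `A.card = 1`: `Asp A ..` holds trivially, use `hc` and `0 ≤ l`. -/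
def StNTW : Prop := ∀ {E : Type} [NormedAddCommGroup E] [NormedSpace ℝ E] (K : ℕ) (c : ℝ), 1 ≤ K →
  0 ≤ c →
  (∀ B : Finset E, B.Nonempty → Asp B (4 * exp (3 * K)) → ∀ (V : Finset E) (l : ℝ), Net V l →
    B ⊆ V → c * mstLen B ≤ l) →
  ∀ A : Finset E, A.Nonempty → ∀ (V : Finset E) (l : ℝ), Net V l → A ⊆ V →
    c * mstLen A ≤ (1 + 4 / K) * l

/-! ### Networks, trees and Hausdorff measure -/

/-- HAU. No hypotheses. About 80 lines.

Proof. For `Net V l` there is a closed connected `S ⊇ V` with `μH[1] S ≤ ofReal l` and `0 ≤ l`: induction; `single v`: `S = {v}`; `step`: add `segment ℝ p w` (closed and connected: `isClosed_seg`, `isConnected_seg` of `Helper77/ST/Upper.lean` for inner product spaces, or directly;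
`μH[1] (segment ℝ p w) = edist p w`, `MeasureTheory.hausdorffMeasure_segment`; the union of two connected sets with a common point `p`). Then `S ∪ B = S`. -/
def StHAU : Prop := ∀ {E : Type} [NormedAddCommGroup E] [NormedSpace ℝ E] [MeasurableSpace E]
  [BorelSpace E] (B V : Finset E) (l : ℝ), Net V l → B ⊆ V → steinerLen B ≤ ENNReal.ofReal l

/-- LNT (lists and networks). Uses `StMST`. About 120 lines.

Proof. (1) `Net A (mstLen A)`-like: for a list `m` of pairs of points of `B` with `NConn m B`, `B` nonempty, there is `l ≤ nlen dist m` with `Net B l`: choose a `Net V l` with `V ⊆ B` and a sublist `m'` of the list `m` of used pairs with `l ≤ nlen dist m'`, every pair of `m'` having both ends in `V`, with `V.card` maximal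
(start: `V = {b}`, `m' = []`). If `V ≠ B`, by `NConn` (an `EqvGen` chain from `b ∈ V` to a point outside) some pair of `m` has exactly one end in `V`; it is not in `m'`; add it. A formulation without sublists: induction on `m.length` for the statement: if `NConn (m) B`.. or: there is a finite set `m' ⊆ m.toFinset`; any way is fine.
(2) conversely for `Net V l`: `mstLen V ≤ l`: induction (the list of the steps connects `V`), `mstLen_le_list` (see `net_list` in `Helper77/GP/Haus.lean`). -/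
def StLNT : Prop := ∀ {E : Type} [MetricSpace E],
  (∀ B : Finset E, B.Nonempty → ∃ l ≤ mstLen B, Net B l) ∧
  ∀ (V : Finset E) (l : ℝ), Net V l → mstLen V ≤ l

/-- DEG (few Steiner points). Uses `StMST`, `StLNT`. About 200 lines.

Proof. Let `B` be a set with `A ⊆ B`, `mstLen B ≤ l` (`B = V` is one, LNT) with the least number of elements. Suppose `B.card > 2 A.card`; `m` the list of MST for `B` (`B.card - 1` pairs). For `v ∈ B` let `deg v` be the number of pairs of `m` which contain `v`; `∑_{v ∈ B} deg v = 2 (B.card - 1)`, so some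
`v ∈ B ∖ A` has `deg v ≤ 2` (else `2 (B.card - 1) ≥ 3 (B.card - A.card)`, that is `B.card ≤ 3 A.card - 2`..; use also `deg ≥ 1` for the points of `A`, as `B.card ≥ 2` and `m` connects `B`: `2 (B.card - 1) ≥ 3 (B.card - A.card) + A.card`, so `B.card ≤ 2 A.card - 2`). `deg v ≥ 1`; let `(v, u)` be a pair of `m` with `v` (in either order).
Replace `v` by `u` in all pairs of `m` (map `φ` with `φ v = u`, identity else) and delete the pairs with equal components: the new list `m'` connects `B ∖ {v}` (`EqvGen` is mapped by `φ`), and its length is `≤ nlen dist m`: the pair `(v, u)` disappears and if there is a second pair `(v, w)` it becomes `(u, w)` with `dist u w ≤ dist v u + dist v w`.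
So `mstLen (B ∖ {v}) ≤ mstLen B ≤ l` (`mstLen_le_list`), a contradiction. -/
def StDEG : Prop := ∀ {E : Type} [MetricSpace E] (A V : Finset E) (l : ℝ), A.Nonempty → Net V l →
  A ⊆ V → ∃ B : Finset E, A ⊆ B ∧ B.card ≤ 2 * A.card ∧ mstLen B ≤ l

/-- LIP (images of spanning trees). Uses `StMST`. About 60 lines.

Proof. The list `m` of MST for `B`, mapped by `f`, connects the image; its length is `∑ dist (f p.1) (f p.2) ≤ ∑ (s dist p.1 p.2 + c) = s mstLen B + c (B.card - 1)`. `mstLen_le_list`. -/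
def StLIP : Prop := ∀ {E F : Type} [MetricSpace E] [MetricSpace F] [DecidableEq F] (B : Finset E)
  (f : E → F) (s c : ℝ), B.Nonempty → 0 ≤ s → 0 ≤ c →
  (∀ x ∈ B, ∀ y ∈ B, dist (f x) (f y) ≤ s * dist x y + c) →
  mstLen (B.image f) ≤ s * mstLen B + c * (B.card - 1)

/-- LOW (spanning trees cannot shrink much). Uses `StMST`. About 60 lines.

Proof. The list of MST for `A.image f`; pull back by an inverse of `f` on `A` (`f` is injective on `A`): it connects `A`, its length is `≤ ∑ (dist (f x) (f y) + c) / s` over the `A.card - 1` pairs. `mstLen_le_list`. -/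
def StLOW : Prop := ∀ {E F : Type} [MetricSpace E] [MetricSpace F] [DecidableEq F] (A : Finset E)
  (f : E → F) (s c : ℝ), A.Nonempty → 0 < s → 0 ≤ c → Set.InjOn f (A : Set E) →
  (∀ x ∈ A, ∀ y ∈ A, s * dist x y - c ≤ dist (f x) (f y)) →
  s * mstLen A - c * (A.card - 1) ≤ mstLen (A.image f)

/-! ### The lattice -/

/-- RND (rounding to the lattice). No hypotheses. About 150 lines.

Proof. Let `o i = min over A of x i`, `Δ = D δ`, so `0 ≤ x i - o i ≤ dist x y ≤ Δ` for `x ∈ A` (`y` with `y i = o i`; `Asp` with the pair `u ≠ v`, `dist u v ≥ δ`.. here `hΔ`). `s = M / Δ`, `f z i = ⌊s * max 0 (min (z i - o i) Δ) + 1/2⌋₊ ∈ {0, .., M}` (as `s Δ + 1/2 < M + 1`).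
The clamp is 1-Lipschitz in every coordinate and `|⌊a + 1/2⌋ - ⌊b + 1/2⌋| ≤ |a - b| + 1`, so with the Euclidean norm (triangle inequality in `ℝ^d`: `f z - f w = s (clamp z - clamp w) + r`, all `|r i| ≤ 1`, `‖r‖ ≤ √d`) `dist (f z) (f w) ≤ s dist z w + √d`. For `z, w` in `A` the clamp is the identity, so also `≥ s dist z w - √d`. -/
def StRND : Prop := ∀ (d M : ℕ) (A : Finset (EuclideanSpace ℝ (Fin d))) (Δ : ℝ), A.Nonempty →
  0 < Δ → 1 ≤ M → (∀ x ∈ A, ∀ y ∈ A, dist x y ≤ Δ) →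
  ∃ f : EuclideanSpace ℝ (Fin d) → EuclideanSpace ℝ (Fin d), (∀ z, f z ∈ grid d M) ∧
    (∀ z w, dist (f z) (f w) ≤ M / Δ * dist z w + √d) ∧
    ∀ z ∈ A, ∀ w ∈ A, M / Δ * dist z w - √d ≤ dist (f z) (f w)

/-- GRD (from a set of bounded aspect ratio to the lattice). Uses `StDEG`, `StLIP`, `StLOW`, `StRND`. About 120 lines.

Proof. If `A.card = 1` then `mstLen A = 0 ≤ ..` (`mstLen` of one point is `0`: the list `[]` and `mstLen_le_list`; `0 ≤ l` for every net). Let `A.card ≥ 2`, `σ > 0` the least distance of two points of `A`, `Δ = D σ`, so the hypothesis of RND holds (`Asp`). `B` from DEG, `f` from RND. `δ = √d D / M ≤ 1/10`; `s = M / Δ`, so `√d = δ s σ`.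
`f` is injective on `A` (`s σ - √d = s σ (1 - δ) > 0`). LOW: `mstLen (f A) ≥ s mstLen A - √d (A.card - 1) ≥ s mstLen A (1 - δ)` (`le_mstLen`: `(A.card - 1) σ ≤ mstLen A`). LIP: `mstLen (f B) ≤ s mstLen B + √d (B.card - 1) ≤ s l + 2 √d A.card ≤ s l + 4 δ s mstLen A` (`A.card ≤ 2 (A.card - 1)`).
`gridRatio d M ≤ mstLen (f B) / mstLen (f A)`, so `c s mstLen A (1 - δ) ≤ s l + 4 δ s mstLen A`, that is `(c (1 - δ) - 4 δ) mstLen A ≤ l`; and `c (1 - δ) - 4 δ ≥ c (1 - 10 δ)` as `c ≥ 1/2`. -/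
def StGRD : Prop := ∀ (d M : ℕ) (c D : ℝ), 1 ≤ d → 1 ≤ M → 1 ≤ D → √d * D / M ≤ 1 / 10 → 1 / 2 ≤ c →
  ENNReal.ofReal c ≤ gridRatio d M → ∀ B : Finset (EuclideanSpace ℝ (Fin d)), B.Nonempty → Asp B D →
  ∀ (V : Finset (EuclideanSpace ℝ (Fin d))) (l : ℝ), Net V l → B ⊆ V →
    c * (1 - 10 * (√d * D / M)) * mstLen B ≤ l

/-- LOB (the trivial half). Uses `StHAU`, `StLNT`. About 40 lines.

Proof. For `A ⊆ B`, `steinerLen A ≤ ofReal (mstLen B)` (LNT (1) for `B`, HAU). -/
def StLOB : Prop := ∀ d M : ℕ, steinerRatio d ≤ gridRatio d M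

/-- UPB. Uses `StNTW`, `StGRD`. About 120 lines.

Proof. `c` real with `ofReal c ≤ gridRatio d M`, `1/2 ≤ c` (e.g. `c = (gridRatio d M).toReal`, finite because of two neighbours in the lattice; `c ≥ 1/2` by LOB and `le_steinerRatioOf`: hypothesis `hc`). GRD and NTW with `D = 4 exp (3 K)`, `c' = c (1 - 10 √d D / M)`:
`c' mstLen A ≤ (1 + 4 / K) l` for every net. For a closed `S` with `S ∪ A` connected, of finite measure, `exists_net` gives nets with `l ≤ (μH[1] S).toReal + η` (as in `mstLen_le_measure` of `Helper77/ST/Final.lean`), so `c' mstLen A ≤ (1 + 4 / K) (μH[1] S).toReal`. Infimum over `S` and `A`. -/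
def StUPB : Prop := ∀ (d M K : ℕ) (c : ℝ), 1 ≤ d → 1 ≤ M → 1 ≤ K →
  √d * (4 * exp (3 * K)) / M ≤ 1 / 10 → 1 / 2 ≤ c → ENNReal.ofReal c ≤ gridRatio d M →
  ENNReal.ofReal (c * (1 - 10 * (√d * (4 * exp (3 * K)) / M)) / (1 + 4 / K)) ≤ steinerRatio d

/-- FIN. Uses `StLOB`, `StUPB`. About 120 lines.

Proof. `x = log M`. `gridRatio d M ≤ 1` (`A = B` = two points of the lattice; `d ≥ 1`, `M ≥ 1`), `≥ steinerRatio d ≥ 0.669 ≥ 1/2` (LOB, `le_steinerRatioOf`). If `x ≤ 100`: `1 ≤ (1 + 200 / x) 0.669` as `1 + 200 / x ≥ 3`. If `x ≥ 100`: `K = ⌊x / 12⌋₊ ≥ 8`, `K ≥ x / 12 - 1 ≥ x / 14`, `exp (3 K) ≤ exp (x / 4)`,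
`√d ≤ √M = exp (x / 2)`, so `δ := √d (4 exp (3 K)) / M ≤ 4 exp (- x / 4)`, `10 δ ≤ 40 exp (-x/4) ≤ 1 / x` (`exp (x/4) ≥ 40 x` for `x ≥ 100`: `exp (x/4) ≥ (x/4)^4 / 24 ≥ ..`). UPB with `c = (gridRatio d M).toReal`: `gridRatio d M ≤ (1 + 4 / K) / (1 - 10 δ) steinerRatio d` and
`(1 + 56 / x) / (1 - 1 / x) ≤ 1 + 200 / x`. -/
def StFIN : Prop := ∀ d M : ℕ, 2 ≤ d → d ≤ M →
  steinerRatio d ≤ gridRatio d M ∧
    gridRatio d M ≤ ENNReal.ofReal (1 + 200 / log M) * steinerRatio d

/-- ASR (bounded aspect ratio). Uses `StNTW`, `StHAU`. About 100 lines.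

Proof. `c = (⨅ ..).toReal` (the infimum is `≤ 1`: two points, `Asp` trivially, segment; so finite). For `B` nonempty with `Asp B (4 exp (3 K))` and a net `V ⊇ B` of length `l`: `c mstLen B ≤ l` (if `B.card ≥ 2` by HAU; if `B.card = 1`, `mstLen B = 0`). NTW, then `exists_net` as in UPB. -/
def StASR : Prop := ∀ d K : ℕ, 1 ≤ d → 1 ≤ K →
  (⨅ (A : Finset (EuclideanSpace ℝ (Fin d))) (_ : 2 ≤ A.card) (_ : Asp A (4 * exp (3 * K))),
    steinerLen A / ENNReal.ofReal (mstLen A)) ≤ ENNReal.ofReal (1 + 4 / K) * steinerRatio d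

/-- NPT (sets with at most `N` points). Uses `StFIN`, `StHAU`, `StLNT`. About 60 lines.

Proof. For `A ⊆ B ⊆ grid d M`, `2 ≤ A.card`: `A.card ≤ (M + 1) ^ d` (`card_image_le`, `Fintype.card_piFinset`) and `steinerLen A ≤ ofReal (mstLen B)` (LNT (1), HAU), so the infimum is `≤ gridRatio d M`. -/
def StNPT : Prop := ∀ d M N : ℕ, 2 ≤ d → d ≤ M → (M + 1) ^ d ≤ N →
  (⨅ (A : Finset (EuclideanSpace ℝ (Fin d))) (_ : 2 ≤ A.card) (_ : A.card ≤ N),
    steinerLen A / ENNReal.ofReal (mstLen A)) ≤ ENNReal.ofReal (1 + 200 / log M) * steinerRatio d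

end Pool.Agent.Helper82.SG
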